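import Mathlib

/-!
# Separating consecutive memory sizes in black-box optimisation

We answer Q1 of `MP_baa74b_lc` in the positive, with an unbounded gap: for all `μ` and `L` there are
a finite set `S` and a class `F` with `C_{μ+1}(F) ≤ μ + 2` and `C_μ(F) ≥ L`.
-/

open Finset
open scoped ENNReal

namespace Pool.Agent.Results.MP_baa74b_lc.MemorySeparation

/-- A `(m+1)` memory-restricted black-box algorithm on the search space `S`: the distribution of the
`m` initial points, the distribution of the next query as a function of the stored multiset of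
`m` pairs, and the distribution of the pair that is removed, as a function of the multiset of
`m + 1` pairs (a pair of the multiset is removed). -/
structure Alg (S : Type) (m : ℕ) where
  init : PMF (Fin m → S)
  pick : Multiset (S × ℝ) → PMF S
  drop : Multiset (S × ℝ) → PMF (S × ℝ)
  drop_mem : ∀ X, X ≠ 0 → ∀ p ∈ (drop X).support, p ∈ X

variable {S : Type} {m : ℕ}

/-- `y` is a maximiser of `f`. -/
def IsMax (f : S → ℝ) (y : S) : Prop := ∀ z, f z ≤ f y

open Classical in
/-- One round, where `none` means that a maximiser has been queried already and `some X` that none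
has been queried and the multiset `X` is stored. -/
noncomputable def step (A : Alg S m) (f : S → ℝ) :
    Option (Multiset (S × ℝ)) → PMF (Option (Multiset (S × ℝ)))
  | none => PMF.pure none
  | some X => (A.pick X).bind fun y =>
      if IsMax f y then PMF.pure none
      else (A.drop ((y, f y) ::ₘ X)).map fun p => some (((y, f y) ::ₘ X).erase p)

/-- The distribution of the state after `r` rounds, from a given state. -/
noncomputable def rounds (A : Alg S m) (f : S → ℝ) :
    ℕ → Option (Multiset (S × ℝ)) → PMF (Option (Multiset (S × ℝ)))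
  | 0 => fun o => PMF.pure o
  | r + 1 => fun o => (step A f o).bind (rounds A f r)

open Classical in
/-- The distribution of the state after the initialisation and `r` rounds. -/
noncomputable def state (A : Alg S m) (f : S → ℝ) (r : ℕ) : PMF (Option (Multiset (S × ℝ))) :=
  A.init.bind fun x => rounds A f r
    (if ∃ i, IsMax f (x i) then none else some (univ.val.map fun i => (x i, f (x i))))

/-- The expected number of queries up to and including the first query of a maximiser,
`∑_t Pr[T > t]`: the first sum is over the times `t < m` in the initialisation, the second over the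
times `t = m + r`. -/
noncomputable def expT (A : Alg S m) (f : S → ℝ) : ℝ≥0∞ :=
  (∑ t ∈ range m, A.init.toOuterMeasure {x | ∀ i : Fin m, (i : ℕ) < t → ¬ IsMax f (x i)}) +
    ∑' r : ℕ, (1 - state A f r none)

/-- The `(m+1)` memory-restricted black-box complexity of the class `F`. -/
noncomputable def complexity (m : ℕ) (F : Set (S → ℝ)) : ℝ≥0∞ :=
  ⨅ A : Alg S m, ⨆ f ∈ F, expT A f

/-! ## The class -/

section

variable {k q N : ℕ}

/-- the search space: `k` share points and `N` candidates -/
abbrev Sp (k N : ℕ) : Type := Fin k ⊕ Fin N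

/-- the functions of the class -/
noncomputable def fn (φ : (Fin k → Fin q) → Fin N) (a : Fin k → Fin q) : Sp k N → ℝ
  | Sum.inl i => (a i : ℕ) + 1
  | Sum.inr z => if z = φ a then (q : ℝ) + 1 else 0

lemma isMax_iff (φ : (Fin k → Fin q) → Fin N) (a : Fin k → Fin q) (y : Sp k N) :
    IsMax (fn φ a) y ↔ y = Sum.inr (φ a) := by
  constructor
  · intro h
    have h1 := h (Sum.inr (φ a))
    rcases y with i | z
    · simp only [fn, if_true] at h1
      have h2 : ((a i : ℕ) : ℝ) < q := by exact_mod_cast (a i).2
      linarith
    · by_cases hz : z = φ a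
      · rw [hz]
      · simp only [fn, if_true, if_neg hz] at h1
        have h2 : (0 : ℝ) ≤ q := Nat.cast_nonneg _
        linarith
  · rintro rfl z
    rcases z with i | z
    · simp only [fn, if_true]
      have h2 : ((a i : ℕ) : ℝ) < q := by exact_mod_cast (a i).2
      linarith
    · simp only [fn, if_true]
      have h2 : (0 : ℝ) ≤ q := Nat.cast_nonneg _
      split_ifs <;> linarith

/-- the value without the maximiser -/
def blind (a : Fin k → Fin q) : Sp k N → Fin (q + 1)
  | Sum.inl i => (a i).succ
  | Sum.inr _ => 0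

lemma fn_blind (φ : (Fin k → Fin q) → Fin N) (a : Fin k → Fin q) (y : Sp k N)
    (hy : y ≠ Sum.inr (φ a)) : fn φ a y = ((blind a y : ℕ) : ℝ) := by
  rcases y with i | z
  · simp [fn, blind]
  · have hz : z ≠ φ a := fun h => hy (by rw [h])
    simp [fn, blind, hz]

/-- the multiset of a tuple -/
noncomputable def toM (x : Fin m → S × Fin (q + 1)) : Multiset (S × ℝ) :=
  univ.val.map fun i => ((x i).1, (((x i).2 : ℕ) : ℝ))

lemma toM_cons (y : S) (v : Fin (q + 1)) (x : Fin m → S × Fin (q + 1)) :
    (y, ((v : ℕ) : ℝ)) ::ₘ toM x = toM (Fin.cons (y, v) x : Fin (m + 1) → S × Fin (q + 1)) := by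
  unfold toM
  rw [Fin.univ_succ]
  simp [Function.comp_def]

lemma toM_succAbove (x : Fin (m + 1) → S × Fin (q + 1)) (i : Fin (m + 1)) :
    toM x = ((x i).1, (((x i).2 : ℕ) : ℝ)) ::ₘ toM (fun j => x (i.succAbove j)) := by
  unfold toM
  rw [Fin.univ_succAbove m i]
  simp [Function.comp_def]

lemma mem_toM {x : Fin m → S × Fin (q + 1)} {p : S × ℝ} (hp : p ∈ toM x) :
    ∃ i, p = ((x i).1, (((x i).2 : ℕ) : ℝ)) := by
  unfold toM at hp
  rw [Multiset.mem_map] at hp
  obtain ⟨i, -, hi⟩ := hp
  exact ⟨i, hi.symm⟩

/-! ## Derandomisation -/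

section tables

variable [Fintype S] [DecidableEq S]

/-- deterministic choices of the next query -/
abbrev Table (S : Type) (m q : ℕ) : Type := (Fin m → S × Fin (q + 1)) → S

/-- the product weight of a table -/
noncomputable def wgt (A : Alg S m) (Q : Table S m q) : ℝ≥0∞ := ∏ x, A.pick (toM x) (Q x)

lemma marg (A : Alg S m) (x : Fin m → S × Fin (q + 1)) (F : S → ℝ≥0∞) :
    ∑ Q : Table S m q, wgt A Q * F (Q x) = ∑ y, A.pick (toM x) y * F y := by
  have h1 := Finset.prod_univ_sum (fun _ : Fin m → S × Fin (q + 1) => (univ : Finset S))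
    (fun x' y => A.pick (toM x') y * (if x' = x then F y else 1))
  rw [Fintype.piFinset_univ] at h1
  have h2 : ∀ Q : Table S m q, wgt A Q * F (Q x) =
      ∏ x', (A.pick (toM x') (Q x') * (if x' = x then F (Q x') else 1)) := by
    intro Q
    rw [prod_mul_distrib, prod_ite_eq' univ x (fun x' => F (Q x')), if_pos (mem_univ _)]
    rfl
  rw [sum_congr rfl (fun Q _ => h2 Q), ← h1, ← mul_prod_erase univ _ (mem_univ x)]
  have h3 : ∏ x' ∈ univ.erase x, ∑ y, A.pick (toM x') y * (if x' = x then F y else 1) = 1 := by
    apply prod_eq_one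
    intro x' hx'
    rw [sum_congr rfl (fun y _ => by rw [if_neg (ne_of_mem_erase hx'), mul_one])]
    have := (A.pick (toM x')).tsum_coe
    rwa [tsum_fintype] at this
  rw [h3, mul_one]
  apply sum_congr rfl
  intro y _
  rw [if_pos rfl]

lemma wgt_total (A : Alg S m) : ∑ Q : Table S m q, wgt A Q = 1 := by
  have h1 := marg (q := q) A (fun _ => (Classical.choice (by
    obtain ⟨y, -⟩ := (A.pick 0).support_nonempty
    exact ⟨y⟩), 0)) (fun _ => 1)
  simp only [mul_one] at h1
  rw [h1]
  have := (A.pick (toM (q := q) (fun _ : Fin m => (Classical.choice (by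
    obtain ⟨y, -⟩ := (A.pick 0).support_nonempty
    exact ⟨y⟩), 0)))).tsum_coe
  rwa [tsum_fintype] at this

/-- all queries that are possible with the given tables and arbitrary removals -/
def Lset (b : S → Fin (q + 1)) : (r : ℕ) → (Fin r → Table S m q) → (Fin m → S × Fin (q + 1)) →
    Finset S
  | 0, _, _ => ∅
  | r + 1, Q, x => insert (Q 0 x) (univ.biUnion fun i : Fin (m + 1) =>
      Lset b r (fun j => Q j.succ)
        (fun j => (Fin.cons (Q 0 x, b (Q 0 x)) x : Fin (m + 1) → S × Fin (q + 1)) (i.succAbove j)))

/-- the bound for the number of possible queries -/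
def Kf (m : ℕ) : ℕ → ℕ
  | 0 => 0
  | r + 1 => 1 + (m + 1) * Kf m r

omit [Fintype S] in
lemma card_Lset (b : S → Fin (q + 1)) (r : ℕ) (Q : Fin r → Table S m q)
    (x : Fin m → S × Fin (q + 1)) : (Lset b r Q x).card ≤ Kf m r := by
  induction r generalizing x with
  | zero => simp [Lset, Kf]
  | succ r ih =>
    simp only [Lset, Kf]
    refine (card_insert_le _ _).trans ?_
    rw [add_comm]
    apply Nat.add_le_add_left
    refine card_biUnion_le.trans ?_
    calc _ ≤ ∑ _i : Fin (m + 1), Kf m r := sum_le_sum fun i _ => ih _ _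
      _ = _ := by simp

end tables

lemma sum_cons {T : Type} [Fintype T] {r : ℕ} (G : (Fin (r + 1) → T) → ℝ≥0∞) :
    ∑ Q : Fin (r + 1) → T, G Q = ∑ Q0 : T, ∑ Q' : Fin r → T, G (Fin.cons Q0 Q') := by
  rw [← (Fin.consEquiv (fun _ => T)).sum_comp, Fintype.sum_prod_type]
  rfl

open Classical in
lemma rounds_le {k N : ℕ} (A : Alg (Sp k N) m) (φ : (Fin k → Fin q) → Fin N)
    (a : Fin k → Fin q) (r : ℕ) (x : Fin m → Sp k N × Fin (q + 1)) :
    (rounds A (fn φ a) r (some (toM x))) none ≤ ∑ Q : Fin r → Table (Sp k N) m q,
      (∏ j, wgt A (Q j)) * (if Sum.inr (φ a) ∈ Lset (blind a) r Q x then 1 else 0) := by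
  induction r generalizing x with
  | zero => simp [rounds]
  | succ r ih =>
    simp only [rounds, step]
    rw [PMF.bind_bind, PMF.bind_apply, tsum_fintype]
    let G : Sp k N → ℝ≥0∞ := fun y => ∑ Q' : Fin r → Table (Sp k N) m q,
      (∏ j, wgt A (Q' j)) * (if Sum.inr (φ a) ∈ insert y (univ.biUnion fun i : Fin (m + 1) =>
      Lset (blind a) r Q' (fun j => (Fin.cons (y, blind a y) x :
        Fin (m + 1) → Sp k N × Fin (q + 1)) (i.succAbove j))) then 1 else 0)
    have hW : ∑ Q' : Fin r → Table (Sp k N) m q, (∏ j, wgt A (Q' j)) = 1 := by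
      have h1 := Finset.prod_univ_sum (fun _ : Fin r => (univ : Finset (Table (Sp k N) m q)))
        (fun _ Q => wgt A Q)
      rw [Fintype.piFinset_univ] at h1
      rw [← h1]
      apply prod_eq_one
      intro j _
      exact wgt_total A
    calc ∑ y, A.pick (toM x) y * _ ≤ ∑ y, A.pick (toM x) y * G y := by
          apply sum_le_sum
          intro y _
          apply mul_le_mul_right
          split_ifs with hy
          · have hG : G y = 1 := by
              simp only [G]
              rw [(isMax_iff φ a y).1 hy]
              simp only [mem_insert_self, if_true, mul_one]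
              exact hW
            rw [hG]
            exact PMF.coe_le_one _ _
          · have hy' : y ≠ Sum.inr (φ a) := fun h => hy ((isMax_iff φ a y).2 h)
            rw [PMF.bind_map, PMF.bind_apply]
            rw [fn_blind φ a y hy', toM_cons]
            set z : Fin (m + 1) → Sp k N × Fin (q + 1) := Fin.cons (y, blind a y) x with hz
            calc _ ≤ ∑' p, (A.drop (toM z)) p * G y := by
                  apply ENNReal.tsum_le_tsum
                  intro p
                  by_cases hp : p ∈ (A.drop (toM z)).support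
                  · apply mul_le_mul_right
                    have hne : toM z ≠ 0 := by
                      rw [toM_succAbove z 0]
                      exact Multiset.cons_ne_zero
                    obtain ⟨i, hi⟩ := mem_toM (A.drop_mem _ hne p hp)
                    have herase : ∀ inst : DecidableEq (Sp k N × ℝ),
                        @Multiset.erase _ inst (toM z) p = toM (fun j => z (i.succAbove j)) := by
                      intro inst
                      rw [toM_succAbove z i, hi]
                      exact Multiset.erase_cons_head _ _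
                    simp only [Function.comp]
                    rw [herase]
                    refine (ih _).trans ?_
                    apply sum_le_sum
                    intro Q' _
                    apply mul_le_mul_right
                    split_ifs with h1 h2 h2
                    · exact le_refl _
                    · exfalso
                      apply h2
                      rw [mem_insert]
                      right
                      rw [mem_biUnion]
                      exact ⟨i, mem_univ _, h1⟩
                    · exact zero_le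
                    · exact le_refl _
                  · rw [PMF.mem_support_iff, not_not] at hp
                    rw [hp, zero_mul, zero_mul]
              _ = G y := by rw [ENNReal.tsum_mul_right, PMF.tsum_coe, one_mul]
      _ = _ := by
          rw [← marg A x G, sum_cons]
          apply sum_congr rfl
          intro Q0 _
          simp only [G]
          rw [mul_sum]
          apply sum_congr rfl
          intro Q' _
          rw [Fin.prod_univ_succ]
          simp only [Fin.cons_zero, Fin.cons_succ, Lset]
          ring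

end

/-! ## Counting -/

open Classical in
lemma exists_phi {I T : Type} [Fintype I] [Fintype T] [Nonempty T] {N K : ℕ}
    (hN : 64 * K ≤ N) (hN0 : 0 < N) (Ls : I → T → Finset (Fin N)) (hL : ∀ i a, (Ls i a).card ≤ K)
    (hI : Fintype.card I < 4 ^ Fintype.card T) :
    ∃ φ : T → Fin N, ∀ i, 2 * (univ.filter fun a => φ a ∈ Ls i a).card ≤ Fintype.card T := by
  by_contra hcon
  push Not at hcon
  set M := Fintype.card T with hM
  have hbad : ∀ φ : T → Fin N, 8 ^ M ≤
      ∑ i, ∏ a, (if φ a ∈ Ls i a then 64 else 1) := by
    intro φ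
    obtain ⟨i, hi⟩ := hcon φ
    calc 8 ^ M ≤ 8 ^ (2 * (univ.filter fun a => φ a ∈ Ls i a).card) :=
          Nat.pow_le_pow_right (by norm_num) hi.le
      _ = ∏ a, (if φ a ∈ Ls i a then 64 else 1) := by
          rw [prod_ite, prod_const, prod_const_one, mul_one, pow_mul]
          norm_num
      _ ≤ ∑ i, ∏ a, (if φ a ∈ Ls i a then 64 else 1) :=
          single_le_sum (f := fun i => ∏ a, (if φ a ∈ Ls i a then 64 else 1))
            (fun _ _ => Nat.zero_le _) (mem_univ i)
  have hsum : N ^ M * 8 ^ M ≤ Fintype.card I * (2 * N) ^ M := by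
    calc N ^ M * 8 ^ M = ∑ _φ : T → Fin N, 8 ^ M := by simp [hM]
      _ ≤ ∑ φ : T → Fin N, ∑ i, ∏ a, (if φ a ∈ Ls i a then 64 else 1) :=
          sum_le_sum fun φ _ => hbad φ
      _ = ∑ i, ∑ φ : T → Fin N, ∏ a, (if φ a ∈ Ls i a then 64 else 1) := sum_comm
      _ ≤ ∑ _i : I, (2 * N) ^ M := by
          apply sum_le_sum
          intro i _
          have h1 := Finset.prod_univ_sum (fun _ : T => (univ : Finset (Fin N)))
            (fun a z => if z ∈ Ls i a then 64 else 1)
          rw [Fintype.piFinset_univ] at h1
          rw [← h1, hM, ← card_univ, ← prod_const]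
          apply prod_le_prod' 
          intro a _
          calc ∑ z : Fin N, (if z ∈ Ls i a then 64 else 1) ≤
              ∑ z : Fin N, ((if z ∈ Ls i a then 64 else 0) + 1) := by
                apply sum_le_sum
                intro z _
                split_ifs <;> norm_num
            _ = (Ls i a).card * 64 + N := by
                rw [sum_add_distrib, ← sum_filter, sum_const]
                simp
            _ ≤ 2 * N := by
                have := hL i a
                omega
      _ = _ := by simp
  rw [mul_pow] at hsum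
  have h2 : N ^ M * (2 ^ M * 4 ^ M) ≤ N ^ M * (2 ^ M * Fintype.card I) := by
    rw [← mul_pow]
    calc N ^ M * (2 * 4) ^ M = N ^ M * 8 ^ M := by norm_num
      _ ≤ _ := hsum
      _ = _ := by ring
  have h3 := Nat.le_of_mul_le_mul_left h2 (by positivity)
  have h4 := Nat.le_of_mul_le_mul_left h3 (by positivity)
  omega

/-! ## Monotonicity -/

lemma rounds_none (A : Alg S m) (f : S → ℝ) (r : ℕ) : rounds A f r none = PMF.pure none := by
  induction r with
  | zero => rfl
  | succ r ih =>
    simp only [rounds, step]
    rw [PMF.pure_bind, ih]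

lemma rounds_mono (A : Alg S m) (f : S → ℝ) (r : ℕ) (o : Option (Multiset (S × ℝ))) :
    (rounds A f r o) none ≤ (rounds A f (r + 1) o) none := by
  induction r generalizing o with
  | zero =>
    rcases o with _ | X
    · rw [rounds_none, rounds_none]
    · simp [rounds]
  | succ r ih =>
    change ((step A f o).bind (rounds A f r)) none ≤ ((step A f o).bind (rounds A f (r + 1))) none
    rw [PMF.bind_apply, PMF.bind_apply]
    apply ENNReal.tsum_le_tsum
    intro o'
    exact mul_le_mul_right (ih o') _

lemma state_mono (A : Alg S m) (f : S → ℝ) {r r' : ℕ} (h : r ≤ r') :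
    (state A f r) none ≤ (state A f r') none := by
  induction r', h using Nat.le_induction with
  | base => exact le_refl _
  | succ r' _ ih =>
    refine ih.trans ?_
    unfold state
    rw [PMF.bind_apply, PMF.bind_apply]
    apply ENNReal.tsum_le_tsum
    intro x
    exact mul_le_mul_right (rounds_mono A f r' _) _

/-! ## The lower bound -/

variable {q : ℕ}

open Classical in
lemma lower {k N : ℕ} (hq : 0 < q) (R : ℕ) (φ : (Fin k → Fin q) → Fin N)
    (hφ : ∀ i : (Fin m → Sp k N) × (Fin R → Table (Sp k N) m q),
      2 * (univ.filter fun a => φ a ∈ univ.filter (fun z : Fin N => (∃ j, i.1 j = Sum.inr z) ∨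
        Sum.inr z ∈ Lset (blind a) R i.2 (fun j => (i.1 j, blind a (i.1 j))))).card ≤
        Fintype.card (Fin k → Fin q)) (A : Alg (Sp k N) m) :
    ∃ a, 2 * (state A (fn φ a) R) none ≤ 1 := by
  have : Nonempty (Fin q) := ⟨⟨0, hq⟩⟩
  have hW : ∑ Q' : Fin R → Table (Sp k N) m q, (∏ j, wgt A (Q' j)) = 1 := by
    have h1 := Finset.prod_univ_sum (fun _ : Fin R => (univ : Finset (Table (Sp k N) m q)))
      (fun _ Q => wgt A Q)
    rw [Fintype.piFinset_univ] at h1
    rw [← h1]
    apply prod_eq_one
    intro j _
    exact wgt_total A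
  let ind : (Fin m → Sp k N) → (Fin R → Table (Sp k N) m q) → (Fin k → Fin q) → ℝ≥0∞ :=
    fun x Q a => if φ a ∈ univ.filter (fun z : Fin N => (∃ j, x j = Sum.inr z) ∨
        Sum.inr z ∈ Lset (blind a) R Q (fun j => (x j, blind a (x j)))) then 1 else 0
  have h1 : ∀ a, (state A (fn φ a) R) none ≤ ∑ x, A.init x * ∑ Q, (∏ j, wgt A (Q j)) *
      ind x Q a := by
    intro a
    unfold state
    rw [PMF.bind_apply, tsum_fintype]
    apply sum_le_sum
    intro x _
    apply mul_le_mul_right
    split_ifs with hx
    · rw [rounds_none]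
      have h2 : ∀ Q, ind x Q a = 1 := by
        intro Q
        simp only [ind]
        rw [if_pos]
        rw [mem_filter]
        obtain ⟨j, hj⟩ := hx
        exact ⟨mem_univ _, Or.inl ⟨j, (isMax_iff φ a _).1 hj⟩⟩
      rw [sum_congr rfl (fun Q _ => by rw [h2 Q, mul_one]), hW]
      exact PMF.coe_le_one _ _
    · have h2 : (univ.val.map fun i => (x i, fn φ a (x i))) =
          toM (fun j => (x j, blind a (x j))) := by
        unfold toM
        apply Multiset.map_congr rfl
        intro i _
        simp only
        rw [fn_blind φ a (x i) (fun h => hx ⟨i, (isMax_iff φ a _).2 h⟩)]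
      rw [h2]
      refine (rounds_le A φ a R _).trans ?_
      apply sum_le_sum
      intro Q _
      apply mul_le_mul_right
      simp only [ind]
      split_ifs with h3 h4 h4
      · exact le_refl _
      · exfalso
        apply h4
        rw [mem_filter]
        exact ⟨mem_univ _, Or.inr h3⟩
      · exact zero_le
      · exact le_refl _
  have h2 : ∑ a, 2 * (state A (fn φ a) R) none ≤ ∑ _a : Fin k → Fin q, (1 : ℝ≥0∞) := by
    calc ∑ a, 2 * (state A (fn φ a) R) none ≤ ∑ a, 2 * ∑ x, A.init x * ∑ Q, (∏ j, wgt A (Q j)) *
        ind x Q a := sum_le_sum fun a _ => mul_le_mul_right (h1 a) _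
      _ = ∑ x, A.init x * ∑ Q, (∏ j, wgt A (Q j)) * (2 * ∑ a, ind x Q a) := by
          simp only [mul_sum]
          rw [sum_comm]
          apply sum_congr rfl
          intro x _
          rw [sum_comm]
          apply sum_congr rfl
          intro Q _
          apply sum_congr rfl
          intro a _
          ring
      _ ≤ ∑ x, A.init x * ∑ Q : Fin R → Table (Sp k N) m q,
          (∏ j, wgt A (Q j)) * (Fintype.card (Fin k → Fin q) : ℝ≥0∞) := by
          apply sum_le_sum
          intro x _
          apply mul_le_mul_right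
          apply sum_le_sum
          intro Q _
          apply mul_le_mul_right
          have h3 := hφ (x, Q)
          simp only at h3
          have h4 : ∑ a, ind x Q a = ((univ.filter fun a => φ a ∈ univ.filter
            (fun z : Fin N => (∃ j, x j = Sum.inr z) ∨
            Sum.inr z ∈ Lset (blind a) R Q (fun j => (x j, blind a (x j))))).card : ℝ≥0∞) := by
            simp only [ind]
            rw [← sum_filter, sum_const, nsmul_eq_mul, mul_one]
          rw [h4]
          exact_mod_cast h3
      _ = (Fintype.card (Fin k → Fin q) : ℝ≥0∞) := by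
          have h6 : ∑ Q : Fin R → Table (Sp k N) m q,
              (∏ j, wgt A (Q j)) * (Fintype.card (Fin k → Fin q) : ℝ≥0∞) =
              (Fintype.card (Fin k → Fin q) : ℝ≥0∞) := by
            rw [← sum_mul, hW, one_mul]
          rw [h6, ← sum_mul]
          have h5 := A.init.tsum_coe
          rw [tsum_fintype] at h5
          rw [h5, one_mul]
      _ = _ := by simp
  by_contra hcon
  push Not at hcon
  have h3 : ∀ a, (1 : ℝ) < (2 * (state A (fn φ a) R) none).toReal := by
    intro a
    have h4 : 2 * (state A (fn φ a) R) none ≠ ⊤ :=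
      ENNReal.mul_ne_top (by norm_num) (PMF.apply_ne_top _ _)
    have h5 := (ENNReal.toReal_lt_toReal ENNReal.one_ne_top h4).2 (hcon a)
    simpa using h5
  have h4 : (∑ a, 2 * (state A (fn φ a) R) none).toReal ≤
      (∑ _a : Fin k → Fin q, (1 : ℝ≥0∞)).toReal :=
    ENNReal.toReal_mono (by simp) h2
  rw [ENNReal.toReal_sum (fun a _ => ENNReal.mul_ne_top (by norm_num) (PMF.apply_ne_top _ _)),
    ENNReal.toReal_sum (fun a _ => ENNReal.one_ne_top)] at h4
  have h5 : ∑ _a : Fin k → Fin q, (1 : ℝ≥0∞).toReal <
      ∑ a, (2 * (state A (fn φ a) R) none).toReal := by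
    apply sum_lt_sum_of_nonempty univ_nonempty
    intro a _
    simpa using h3 a
  linarith

/-- the number of strategies is small compared with the number of functions -/
lemma exists_q (s m R : ℕ) (hs : 0 < s) : ∃ q, 0 < q ∧
    s ^ m * (s ^ ((s * (q + 1)) ^ m)) ^ R < 4 ^ (q ^ (m + 1)) := by
  set q := s * (m + R * (s ^ m * 2 ^ m)) + 1 with hq
  refine ⟨q, by omega, ?_⟩
  have hq1 : 1 ≤ q := by omega
  have h1 : s ^ m * (s ^ ((s * (q + 1)) ^ m)) ^ R = s ^ (m + (s * (q + 1)) ^ m * R) := by
    rw [← pow_mul, ← pow_add]
  have h2 : s ≤ 2 ^ s := Nat.lt_two_pow_self.le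
  have h3 : (s * (q + 1)) ^ m ≤ s ^ m * 2 ^ m * q ^ m := by
    calc (s * (q + 1)) ^ m = s ^ m * (q + 1) ^ m := mul_pow _ _ _
      _ ≤ s ^ m * (2 * q) ^ m := by
          apply Nat.mul_le_mul_left
          apply Nat.pow_le_pow_left
          omega
      _ = s ^ m * 2 ^ m * q ^ m := by
          rw [mul_pow]
          ring
  have h4 : 1 ≤ q ^ m := Nat.one_le_pow _ _ (by omega)
  have h5 : s * (m + (s * (q + 1)) ^ m * R) ≤ q ^ (m + 1) := by
    calc s * (m + (s * (q + 1)) ^ m * R) ≤ s * (m * q ^ m + (s ^ m * 2 ^ m * q ^ m) * R) := by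
          gcongr
          nlinarith
      _ = q ^ m * (s * (m + R * (s ^ m * 2 ^ m))) := by ring
      _ ≤ q ^ m * q := by
          apply Nat.mul_le_mul_left
          omega
      _ = q ^ (m + 1) := by rw [pow_succ]
  calc s ^ m * (s ^ ((s * (q + 1)) ^ m)) ^ R = s ^ (m + (s * (q + 1)) ^ m * R) := h1
    _ ≤ (2 ^ s) ^ (m + (s * (q + 1)) ^ m * R) := Nat.pow_le_pow_left h2 _
    _ = 2 ^ (s * (m + (s * (q + 1)) ^ m * R)) := by rw [← pow_mul]
    _ ≤ 2 ^ (q ^ (m + 1)) := Nat.pow_le_pow_right (by norm_num) h5
    _ < 4 ^ (q ^ (m + 1)) := by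
        apply Nat.pow_lt_pow_left (by norm_num)
        positivity

/-! ## The upper bound -/

open Classical in
/-- reading the shares -/
noncomputable def readShares {k N : ℕ} [Nonempty (Fin q)] (X : Multiset (Sp k N × ℝ)) :
    Fin k → Fin q := fun i =>
  if h : ∃ v : Fin q, ((Sum.inl i : Sp k N), ((v : ℕ) : ℝ) + 1) ∈ X then h.choose
  else Classical.arbitrary _

lemma read_eq {k N : ℕ} [Nonempty (Fin q)] (φ : (Fin k → Fin q) → Fin N) (a : Fin k → Fin q) :
    readShares (q := q) ((univ : Finset (Fin k)).val.map fun i =>
      ((Sum.inl i : Sp k N), fn φ a (Sum.inl i))) = a := by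
  funext i
  unfold readShares
  have h : ∃ v : Fin q, ((Sum.inl i : Sp k N), ((v : ℕ) : ℝ) + 1) ∈
      ((univ : Finset (Fin k)).val.map fun i => ((Sum.inl i : Sp k N), fn φ a (Sum.inl i))) := by
    refine ⟨a i, ?_⟩
    rw [Multiset.mem_map]
    exact ⟨i, mem_univ_val i, rfl⟩
  rw [dif_pos h]
  have h1 := h.choose_spec
  generalize h.choose = v at h1 ⊢
  rw [Multiset.mem_map] at h1
  obtain ⟨j, -, hj⟩ := h1
  rw [Prod.mk.injEq] at hj
  obtain ⟨h2, h3⟩ := hj
  have h4 : j = i := Sum.inl_injective h2
  rw [h4] at h3
  simp only [fn] at h3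
  have h5 : ((a i : ℕ) : ℝ) = ((v : ℕ) : ℝ) := by linarith
  exact (Fin.ext (by exact_mod_cast h5)).symm

open Classical in
/-- query all the shares, then the location that they determine -/
noncomputable def algB {k N : ℕ} [Nonempty (Fin q)] [Nonempty (Sp k N)]
    (φ : (Fin k → Fin q) → Fin N) : Alg (Sp k N) k where
  init := PMF.pure fun i => Sum.inl i
  pick X := PMF.pure (Sum.inr (φ (readShares X)))
  drop X := if h : ∃ p, p ∈ X then PMF.pure h.choose else PMF.pure (Classical.arbitrary _, 0)
  drop_mem := by
    intro X hX p hp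
    obtain ⟨p0, hp0⟩ := Multiset.exists_mem_of_ne_zero hX
    have h : ∃ p, p ∈ X := ⟨p0, hp0⟩
    rw [dif_pos h, PMF.support_pure, Set.mem_singleton_iff] at hp
    rw [hp]
    exact h.choose_spec

open Classical in
lemma upper {k N : ℕ} [Nonempty (Fin q)] [Nonempty (Sp k N)]
    (φ : (Fin k → Fin q) → Fin N) (a : Fin k → Fin q) :
    expT (algB φ) (fn φ a) ≤ k + 1 := by
  unfold expT
  apply add_le_add
  · calc _ ≤ ∑ _t ∈ range k, (1 : ℝ≥0∞) := by
          apply sum_le_sum
          intro t _
          have h1 := (algB φ).init.toOuterMeasure.mono (Set.subset_univ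
            {x : Fin k → Sp k N | ∀ i : Fin k, (i : ℕ) < t → ¬ IsMax (fn φ a) (x i)})
          refine h1.trans (le_of_eq ?_)
          change (algB φ).init.toOuterMeasure Set.univ = 1
          rw [PMF.toOuterMeasure_apply, Set.indicator_univ, PMF.tsum_coe]
      _ = k := by simp
  · have hinit : ¬ ∃ i : Fin k, IsMax (fn φ a) ((fun i => Sum.inl i : Fin k → Sp k N) i) := by
      rintro ⟨i, hi⟩
      rw [isMax_iff] at hi
      exact absurd hi (by simp)
    have hst : ∀ r, state (algB φ) (fn φ a) (r + 1) none = 1 := by
      intro r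
      unfold state
      have h1 : (algB φ).init = PMF.pure fun i => Sum.inl i := rfl
      rw [h1, PMF.pure_bind, if_neg hinit]
      simp only [rounds, step]
      have h2 : (algB φ).pick ((univ : Finset (Fin k)).val.map fun i =>
          ((Sum.inl i : Sp k N), fn φ a (Sum.inl i))) = PMF.pure (Sum.inr (φ a)) := by
        change PMF.pure (Sum.inr (φ (readShares _))) = _
        rw [read_eq]
      rw [h2, PMF.pure_bind, if_pos ((isMax_iff φ a _).2 rfl), PMF.pure_bind, rounds_none]
      simp
    rw [tsum_eq_single 0]
    · exact tsub_le_self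
    · intro r hr
      obtain ⟨r', rfl⟩ := Nat.exists_eq_succ_of_ne_zero hr
      rw [Nat.succ_eq_add_one, hst r']
      simp

/-- For all `μ` and `L` there are a finite set `S` and a class `F` of functions `S → ℝ` with
`C_{μ+1}(F) ≤ μ + 2` and `C_μ(F) ≥ L`. -/
theorem result (μ L : ℕ) : ∃ (S : Type) (_ : Finite S) (F : Set (S → ℝ)),
    complexity (μ + 1) F ≤ (μ : ℝ≥0∞) + 2 ∧ (L : ℝ≥0∞) ≤ complexity μ F := by
  classical
  set R := 2 * L with hR
  set K := μ + Kf μ R with hK
  set N := 64 * K + 1 with hN
  obtain ⟨q, hq, hq2⟩ := exists_q (μ + 1 + N) μ R (by omega)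
  have : Nonempty (Fin q) := ⟨⟨0, hq⟩⟩
  have : Nonempty (Sp (μ + 1) N) := ⟨Sum.inl 0⟩
  obtain ⟨φ, hφ⟩ := exists_phi (I := (Fin μ → Sp (μ + 1) N) × (Fin R → Table (Sp (μ + 1) N) μ q))
    (T := Fin (μ + 1) → Fin q) (N := N) (K := K) (by omega) (by omega)
    (fun i a => univ.filter (fun z : Fin N => (∃ j, i.1 j = Sum.inr z) ∨
        Sum.inr z ∈ Lset (blind a) R i.2 (fun j => (i.1 j, blind a (i.1 j)))))
    (by
      rintro ⟨x, Q⟩ a
      rw [filter_or]
      refine (card_union_le _ _).trans ?_
      apply add_le_add
      · have h1 : (univ.filter fun z : Fin N => ∃ j, x j = Sum.inr z).card ≤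
            (univ.image x).card := by
          apply card_le_card_of_injOn (fun z => Sum.inr z)
          · intro z hz
            rw [mem_coe, mem_filter] at hz
            obtain ⟨j, hj⟩ := hz.2
            rw [mem_coe, mem_image]
            exact ⟨j, mem_univ _, hj⟩
          · intro z _ z' _ h
            exact Sum.inr_injective h
        refine h1.trans (card_image_le.trans ?_)
        simp
      · refine le_trans ?_ (card_Lset (blind a) R Q (fun j => (x j, blind a (x j))))
        apply card_le_card_of_injOn (fun z => Sum.inr z)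
        · intro z hz
          rw [mem_coe, mem_filter] at hz
          exact mem_coe.2 hz.2
        · intro z _ z' _ h
          exact Sum.inr_injective h)
    (by
      refine lt_of_le_of_lt (le_of_eq ?_) (hq2.trans_le (le_of_eq ?_))
      · simp only [Fintype.card_prod, Fintype.card_pi, prod_const, card_univ, Fintype.card_fin,
          Fintype.card_sum]
      · simp only [Fintype.card_pi, prod_const, card_univ, Fintype.card_fin])
  refine ⟨Sp (μ + 1) N, inferInstance, Set.range (fn φ), ?_, ?_⟩
  · refine iInf_le_of_le (algB φ) (iSup₂_le ?_)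
    rintro f ⟨a, rfl⟩
    refine (upper φ a).trans (le_of_eq ?_)
    push_cast
    rw [add_assoc]
    norm_num
  · refine le_iInf fun A => ?_
    obtain ⟨a, ha⟩ := lower hq R φ hφ A
    refine le_iSup₂_of_le (fn φ a) ⟨a, rfl⟩ ?_
    unfold expT
    refine le_trans ?_ le_add_self
    refine le_trans ?_ (ENNReal.sum_le_tsum (range R))
    have hp : (state A (fn φ a) R) none ≤ 1 := PMF.coe_le_one _ _
    have h1 : (1 : ℝ≥0∞) ≤ 2 * (1 - (state A (fn φ a) R) none) := by
      rw [ENNReal.mul_sub (by intros; norm_num)]
      apply ENNReal.le_sub_of_add_le_left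
      · exact ENNReal.mul_ne_top (by norm_num) (PMF.apply_ne_top _ _)
      · calc 2 * (state A (fn φ a) R) none + 1 ≤ 1 + 1 := add_le_add ha le_rfl
          _ = 2 * 1 := by norm_num
    calc (L : ℝ≥0∞) = L * 1 := (mul_one _).symm
      _ ≤ L * (2 * (1 - (state A (fn φ a) R) none)) := mul_le_mul_right h1 _
      _ = ∑ r ∈ range R, (1 - (state A (fn φ a) R) none) := by
          rw [sum_const, card_range, nsmul_eq_mul, hR]
          push_cast
          ring
      _ ≤ ∑ r ∈ range R, (1 - (state A (fn φ a) r) none) := by
          apply sum_le_sum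
          intro r hr
          exact tsub_le_tsub_left (state_mono A _ (mem_range.1 hr).le) _

end Pool.Agent.Results.MP_baa74b_lc.MemorySeparation
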